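import Pool.Agent.Helper636_AG.AbDefs

/-!
# Abelian groups with underlying set `ℝ` and an `F_σ` graph

We prove the statement `S_(a)` of the problem: every `ℵ_ω`-free abelian group with underlying set `ℝ`
whose graph is an `F_σ` subset of `ℝ ^ 3` is free. In fact there is no such group: every abelian group
with underlying set `ℝ` and an `F_σ` graph has a countable subgroup which is not free.

Proof. The graph is a countable union of compact sets, and the operation is continuous on the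
projection of each of them. By the Baire category theorem it is continuous on some rectangle
`U × V`. For `a ∈ U` and `b ∈ V` the operation is strictly monotone in each variable near `(a, b)`. By
the intermediate value theorem each `t = y - b` with `y` near `b` (difference in the group) has the form
`2 t'` with `t' = y' - b`, `y'` between `b` and `y`. So there is a sequence `g 0 ≠ 0`,
`g n = 2 g (n + 1)`, and the subgroup generated by it is countable and not free.
-/

set_option autoImplicit false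

namespace Pool.Agent.Results.MP_e75763_lc.FSigmaClass

open Set Cardinal Pool.Agent.Helper636_AG.Ab

/-- An injective continuous function on an interval which increases from the left to the right end
is strictly monotone. -/
lemma mono_of {f : ℝ → ℝ} {e : ℝ} (he : 0 < e) (hc : ContinuousOn f (Icc 0 e))
    (hi : InjOn f (Icc 0 e)) (h : f 0 < f e) : StrictMonoOn f (Icc 0 e) := by
  rcases hc.strictMonoOn_of_injOn_Icc' he.le hi with h1 | h1
  · exact h1
  · exact absurd (h1 (left_mem_Icc.2 he.le) (right_mem_Icc.2 he.le) he) (not_lt.2 h.le)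

/-- The halving lemma. -/
theorem halve {A : Type*} [AddCommGroup A] (α β : ℝ → A) (F : ℝ → ℝ → ℝ) (e : ℝ) (he : 0 < e)
    (hF : ContinuousOn (fun p : ℝ × ℝ => F p.1 p.2) (Icc 0 e ×ˢ Icc 0 e))
    (hiff : ∀ x ∈ Icc 0 e, ∀ y ∈ Icc 0 e, ∀ x' ∈ Icc 0 e, ∀ y' ∈ Icc 0 e,
      (F x y = F x' y' ↔ α x + β y = α x' + β y'))
    (hα : InjOn α (Icc 0 e)) (hβ : InjOn β (Icc 0 e))
    (h1 : F 0 0 < F e 0) (h2 : F 0 0 < F 0 e) :
    ∃ g : ℕ → A, g 0 ≠ 0 ∧ ∀ n, g (n + 1) + g (n + 1) = g n := by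
  have z0 : (0 : ℝ) ∈ Icc 0 e := left_mem_Icc.2 he.le
  have z1 : e ∈ Icc 0 e := right_mem_Icc.2 he.le
  have cx : ∀ y ∈ Icc 0 e, ContinuousOn (fun x => F x y) (Icc 0 e) := fun y hy =>
    hF.comp (continuousOn_id.prodMk continuousOn_const) fun x hx => ⟨hx, hy⟩
  have cy : ∀ x ∈ Icc 0 e, ContinuousOn (fun y => F x y) (Icc 0 e) := fun x hx =>
    hF.comp (continuousOn_const.prodMk continuousOn_id) fun y hy => ⟨hx, hy⟩
  have ix : ∀ y ∈ Icc 0 e, InjOn (fun x => F x y) (Icc 0 e) := fun y hy x hx x' hx' h =>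
    hα hx hx' (add_right_cancel ((hiff x hx y hy x' hx' y hy).1 h))
  have iy : ∀ x ∈ Icc 0 e, InjOn (fun y => F x y) (Icc 0 e) := fun x hx y hy y' hy' h =>
    hβ hy hy' (add_left_cancel ((hiff x hx y hy x hx y' hy').1 h))
  have my : StrictMonoOn (fun y => F 0 y) (Icc 0 e) := mono_of he (cy 0 z0) (iy 0 z0) h2
  have mx0 : StrictMonoOn (fun x => F x 0) (Icc 0 e) := mono_of he (cx 0 z0) (ix 0 z0) h1
  have mx : ∀ y ∈ Icc 0 e, StrictMonoOn (fun x => F x y) (Icc 0 e) := by
    intro y hy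
    refine mono_of he (cx y hy) (ix y hy) ?_
    by_contra hcon
    have hcon' : F e y ≤ F 0 y := not_lt.1 hcon
    have hc : ContinuousOn (fun y => F e y - F 0 y) (Icc 0 y) :=
      ((cy e z1).sub (cy 0 z0)).mono (Icc_subset_Icc_right hy.2)
    obtain ⟨w, hw, hw0⟩ := intermediate_value_Icc' hy.1 hc
      (⟨by linarith, by linarith⟩ : (0 : ℝ) ∈ Icc (F e y - F 0 y) (F e 0 - F 0 0))
    have hw' : w ∈ Icc 0 e := ⟨hw.1, hw.2.trans hy.2⟩
    have h3 := ix w hw' z1 z0 (by simp only at hw0 ⊢; linarith)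
    exact he.ne' h3
  -- the range of the parameter
  obtain ⟨η, hη, hη0, hη1⟩ : ∃ η ∈ Icc 0 e, 0 < η ∧ F 0 η ≤ F e 0 := by
    obtain ⟨η, hη, h3⟩ := intermediate_value_Icc he.le (cy 0 z0)
      (⟨(lt_min h1 h2).le, min_le_right _ _⟩ : min (F e 0) (F 0 e) ∈ Icc (F 0 0) (F 0 e))
    simp only at h3
    refine ⟨η, hη, lt_of_le_of_ne hη.1 ?_, ?_⟩
    · rintro rfl
      exact absurd (lt_min h1 h2) (by rw [h3]; exact lt_irrefl _)
    · rw [h3]
      exact min_le_left _ _
  have hηe : ∀ y ∈ Icc 0 η, y ∈ Icc 0 e := fun y hy => ⟨hy.1, hy.2.trans hη.2⟩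
  have hX : ∀ y : Icc (0 : ℝ) η, ∃ x : Icc (0 : ℝ) e, F x 0 = F 0 y := by
    intro y
    have h3 : F 0 0 ≤ F 0 y := my.monotoneOn z0 (hηe y y.2) y.2.1
    have h4 : F 0 y ≤ F 0 η := my.monotoneOn (hηe y y.2) hη y.2.2
    obtain ⟨x, hx, h5⟩ := intermediate_value_Icc he.le (cx 0 z0)
      (⟨h3, h4.trans hη1⟩ : F 0 (y : ℝ) ∈ Icc (F 0 0) (F e 0))
    exact ⟨⟨x, hx⟩, h5⟩
  choose X hX using hX
  have hXc : Continuous X := by
    have hc1 : Continuous (fun x : Icc (0 : ℝ) e => F x 0) :=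
      continuousOn_iff_continuous_domRestrict.1 (cx 0 z0)
    have hemb := hc1.isClosedEmbedding (fun x x' h => Subtype.ext (ix 0 z0 x.2 x'.2 h))
    rw [hemb.isEmbedding.isInducing.continuous_iff]
    have h3 : ((fun x : Icc (0 : ℝ) e => F x 0) ∘ X) = fun y : Icc (0 : ℝ) η => F 0 y :=
      funext fun y => hX y
    rw [h3]
    exact continuousOn_iff_continuous_domRestrict.1 ((cy 0 z0).mono hηe)
  have hPc : Continuous (fun y : Icc (0 : ℝ) η => F (X y) y) := by
    have h3 : Continuous (fun y : Icc (0 : ℝ) η =>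
        (⟨((X y : ℝ), (y : ℝ)), (X y).2, hηe y y.2⟩ :
          ((Icc 0 e ×ˢ Icc 0 e : Set (ℝ × ℝ))))) :=
      Continuous.subtype_mk (by fun_prop) _
    exact (continuousOn_iff_continuous_domRestrict.1 hF).comp h3
  have hX0 : ∀ y : Icc (0 : ℝ) η, 0 < (y : ℝ) → 0 < (X y : ℝ) := by
    intro y hy
    refine lt_of_le_of_ne (X y).2.1 fun h => ?_
    have h3 := hX y
    rw [← h] at h3
    have h4 : F 0 0 < F 0 y := my z0 (hηe y y.2) hy
    exact absurd h3 h4.ne
  have step : ∀ t : Icc (0 : ℝ) η, 0 < (t : ℝ) → ∃ y : Icc (0 : ℝ) η, 0 < (y : ℝ) ∧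
      (β y - β 0) + (β y - β 0) = β t - β 0 := by
    intro t ht
    have hle : (⟨0, left_mem_Icc.2 hη0.le⟩ : Icc (0 : ℝ) η) ≤ t := Subtype.mk_le_mk.2 t.2.1
    have ha : F (X ⟨0, left_mem_Icc.2 hη0.le⟩) (0 : ℝ) = F 0 0 := hX ⟨0, left_mem_Icc.2 hη0.le⟩
    have hb : F 0 0 < F 0 t := my z0 (hηe t t.2) ht
    have hc : F 0 t < F (X t) t := mx t (hηe t t.2) z0 (X t).2 (hX0 t ht)
    have : Fact ((0 : ℝ) ≤ η) := ⟨hη0.le⟩
    obtain ⟨y, hy, h3⟩ := intermediate_value_Icc hle hPc.continuousOn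
      (⟨by simp only; rw [ha]; exact hb.le, hc.le⟩ :
        F 0 t ∈ Icc ((fun y : Icc (0 : ℝ) η => F (X y) y) ⟨0, left_mem_Icc.2 hη0.le⟩)
          ((fun y : Icc (0 : ℝ) η => F (X y) y) t))
    simp only at h3
    refine ⟨y, lt_of_le_of_ne y.2.1 fun h => ?_, ?_⟩
    · have h4 : y = ⟨0, left_mem_Icc.2 hη0.le⟩ := Subtype.ext h.symm
      rw [h4] at h3
      simp only at h3
      rw [ha] at h3
      exact hb.ne h3
    · have h4 := (hiff _ (X y).2 _ (hηe y y.2) _ z0 _ (hηe t t.2)).1 h3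
      have h5 := (hiff _ (X y).2 _ z0 _ z0 _ (hηe y y.2)).1 (hX y)
      have h6 : α (X y) = α 0 + β y - β 0 := eq_sub_of_add_eq h5
      rw [h6] at h4
      have h7 : β (t : ℝ) = β (y : ℝ) - β 0 + β y := by
        apply add_left_cancel (a := α 0)
        rw [← h4]
        abel
      rw [h7]
      abel
  have step' : ∀ t : {t : Icc (0 : ℝ) η // 0 < (t : ℝ)}, ∃ y : {t : Icc (0 : ℝ) η // 0 < (t : ℝ)},
      (β (y.1 : ℝ) - β 0) + (β (y.1 : ℝ) - β 0) = β (t.1 : ℝ) - β 0 := fun t => by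
    obtain ⟨y, hy, h3⟩ := step t.1 t.2
    exact ⟨⟨y, hy⟩, h3⟩
  choose N hN using step'
  refine ⟨fun n => β ((N^[n] ⟨⟨η, right_mem_Icc.2 hη0.le⟩, hη0⟩).1 : ℝ) - β 0, ?_, fun n => ?_⟩
  · simp only [Function.iterate_zero, id_eq]
    intro h
    exact hη0.ne' (hβ hη z0 (sub_eq_zero.1 h))
  · simp only [Function.iterate_succ_apply']
    exact hN _

/-- A function with an `F_σ` graph is continuous on a square. -/
theorem square (f : ℝ → ℝ → ℝ)
    (hf : IsFSigma {p : ℝ × ℝ × ℝ | f p.1 p.2.1 = p.2.2}) :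
    ∃ a b e : ℝ, 0 < e ∧ ContinuousOn (fun p : ℝ × ℝ => f p.1 p.2)
      (Icc (a - e) (a + e) ×ˢ Icc (b - e) (b + e)) := by
  obtain ⟨K, hK, hU⟩ := hf
  set C : ℕ × ℕ → Set (ℝ × ℝ) := fun i =>
    (fun p : ℝ × ℝ × ℝ => (p.1, p.2.1)) '' (K i.1 ∩ Metric.closedBall 0 i.2) with hC
  have hcomp : ∀ i : ℕ × ℕ, IsCompact (K i.1 ∩ Metric.closedBall 0 (i.2 : ℝ)) := fun i =>
    (isCompact_closedBall _ _).inter_left (hK _)
  have hproj : Continuous (fun p : ℝ × ℝ × ℝ => (p.1, p.2.1)) := by fun_prop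
  have hcl : ∀ i, IsClosed (C i) := fun i => ((hcomp i).image hproj).isClosed
  have hun : ⋃ i, C i = Set.univ := by
    refine eq_univ_of_forall fun p => ?_
    have h1 : ((p.1, p.2, f p.1 p.2) : ℝ × ℝ × ℝ) ∈
        {p : ℝ × ℝ × ℝ | f p.1 p.2.1 = p.2.2} := rfl
    rw [hU, mem_iUnion] at h1
    obtain ⟨n, hn⟩ := h1
    obtain ⟨m, hm⟩ := exists_nat_ge ‖((p.1, p.2, f p.1 p.2) : ℝ × ℝ × ℝ)‖
    exact mem_iUnion.2 ⟨(n, m), _, ⟨hn, by rw [mem_closedBall_zero_iff]; exact hm⟩, rfl⟩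
  obtain ⟨i, p, hp⟩ := nonempty_interior_of_iUnion_of_closed hcl hun
  have hcont : ContinuousOn (fun p : ℝ × ℝ => f p.1 p.2) (C i) := by
    have : CompactSpace ↥(K i.1 ∩ Metric.closedBall 0 (i.2 : ℝ)) :=
      isCompact_iff_compactSpace.1 (hcomp i)
    have hgr : ∀ k ∈ K i.1 ∩ Metric.closedBall 0 (i.2 : ℝ), f k.1 k.2.1 = k.2.2 := by
      intro k hk
      have h1 : k ∈ {p : ℝ × ℝ × ℝ | f p.1 p.2.1 = p.2.2} := by
        rw [hU]; exact mem_iUnion.2 ⟨_, hk.1⟩
      exact h1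
    obtain ⟨q, hq⟩ : ∃ q : ↥(K i.1 ∩ Metric.closedBall 0 (i.2 : ℝ)) → ℝ × ℝ,
        ∀ k, q k = (k.1.1, k.1.2.1) := ⟨_, fun _ => rfl⟩
    have hqc : Continuous q := by
      rw [show q = fun k => (k.1.1, k.1.2.1) from funext hq]
      fun_prop
    have hqi : Function.Injective q := by
      intro k k' h
      rw [hq, hq] at h
      have h1 : k.1.1 = k'.1.1 := (Prod.mk.inj h).1
      have h2 : k.1.2.1 = k'.1.2.1 := (Prod.mk.inj h).2
      refine Subtype.ext (Prod.ext h1 (Prod.ext h2 ?_))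
      rw [← hgr _ k.2, ← hgr _ k'.2, h1, h2]
    have hemb := (hqc.isClosedEmbedding hqi).isEmbedding
    have hr : range q = C i := by
      rw [hC]
      ext x
      constructor
      · rintro ⟨k, rfl⟩
        exact ⟨k.1, k.2, (hq k).symm⟩
      · rintro ⟨k, hk, rfl⟩
        exact ⟨⟨k, hk⟩, hq _⟩
    rw [← hr, continuousOn_iff_continuous_domRestrict]
    have h3 : (range q).domRestrict (fun p : ℝ × ℝ => f p.1 p.2) =
        (fun k : ↥(K i.1 ∩ Metric.closedBall 0 (i.2 : ℝ)) => k.1.2.2) ∘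
          hemb.toHomeomorph.symm := by
      funext x
      obtain ⟨k, rfl⟩ := hemb.toHomeomorph.surjective x
      rw [Function.comp_apply, Homeomorph.symm_apply_apply]
      show f (q k).1 (q k).2 = _
      rw [hq]
      exact hgr _ k.2
    rw [h3]
    exact (by fun_prop : Continuous (fun k : ↥(K i.1 ∩ Metric.closedBall 0 (i.2 : ℝ)) =>
      k.1.2.2)).comp hemb.toHomeomorph.symm.continuous
  obtain ⟨e, he, hsub⟩ := Metric.nhds_basis_closedBall.mem_iff.1 (mem_interior_iff_mem_nhds.1 hp)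
  refine ⟨p.1, p.2, e, he, hcont.mono ?_⟩
  refine Subset.trans ?_ hsub
  rw [← Real.closedBall_eq_Icc, ← Real.closedBall_eq_Icc, closedBall_prod_same]

/-- A sign such that the function increases in its direction. -/
lemma sign {f : ℝ → ℝ} {a e : ℝ} (he : 0 < e) (hc : ContinuousOn f (Icc (a - e) (a + e)))
    (hi : InjOn f (Icc (a - e) (a + e))) : ∃ s : ℝ, (s = 1 ∨ s = -1) ∧ f a < f (a + s * e) := by
  have h0 : a ∈ Icc (a - e) (a + e) := ⟨by linarith, by linarith⟩
  have h1 : a - e ∈ Icc (a - e) (a + e) := ⟨le_rfl, by linarith⟩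
  have h2 : a + e ∈ Icc (a - e) (a + e) := ⟨by linarith, le_rfl⟩
  rcases hc.strictMonoOn_of_injOn_Icc' (by linarith) hi with h | h
  · exact ⟨1, Or.inl rfl, by rw [one_mul]; exact h h0 h2 (by linarith)⟩
  · refine ⟨-1, Or.inr rfl, ?_⟩
    have h3 := h h1 h0 (by linarith)
    have h4 : a + -1 * e = a - e := by ring
    rw [h4]
    exact h3

/-- A group with an `F_σ` graph has a nonzero element which is divisible by all powers of two. -/
theorem divisible {A : Type*} [AddCommGroup A] (φ : ℝ → A) (hφ : Function.Injective φ)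
    (f : ℝ → ℝ → ℝ) (hf : ∀ x y, φ (f x y) = φ x + φ y)
    (hG : IsFSigma {p : ℝ × ℝ × ℝ | f p.1 p.2.1 = p.2.2}) :
    ∃ g : ℕ → A, g 0 ≠ 0 ∧ ∀ n, g (n + 1) + g (n + 1) = g n := by
  obtain ⟨a, b, e, he, hF⟩ := square f hG
  have hadd : ∀ x y x' y' : ℝ, f x y = f x' y' ↔ φ x + φ y = φ x' + φ y' := by
    intro x y x' y'
    rw [← hf, ← hf]
    exact hφ.eq_iff.symm
  have ha : a ∈ Icc (a - e) (a + e) := ⟨by linarith, by linarith⟩
  have hb : b ∈ Icc (b - e) (b + e) := ⟨by linarith, by linarith⟩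
  obtain ⟨s, hs, hs'⟩ := sign (f := fun x => f x b) he
    (hF.comp (continuousOn_id.prodMk continuousOn_const) fun x hx => ⟨hx, hb⟩)
    (fun x _ x' _ h => hφ (add_right_cancel ((hadd x b x' b).1 h)))
  obtain ⟨t, ht, ht'⟩ := sign (f := fun y => f a y) he
    (hF.comp (continuousOn_const.prodMk continuousOn_id) fun x hx => ⟨ha, hx⟩)
    (fun x _ x' _ h => hφ (add_left_cancel ((hadd a x a x').1 h)))
  have hm : ∀ c s x : ℝ, (s = 1 ∨ s = -1) → x ∈ Icc 0 e → c + s * x ∈ Icc (c - e) (c + e) := by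
    rintro c s x (rfl | rfl) hx
    · exact ⟨by linarith [hx.1], by linarith [hx.2]⟩
    · exact ⟨by linarith [hx.2], by linarith [hx.1]⟩
  have hinj : ∀ c s : ℝ, (s = 1 ∨ s = -1) → ∀ x y : ℝ, c + s * x = c + s * y → x = y := by
    rintro c s (rfl | rfl) x y h <;> linarith
  refine halve (fun x => φ (a + s * x)) (fun y => φ (b + t * y))
    (fun x y => f (a + s * x) (b + t * y)) e he ?_ ?_ ?_ ?_ ?_ ?_
  · have hc : Continuous (fun p : ℝ × ℝ => (a + s * p.1, b + t * p.2)) := by fun_prop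
    exact hF.comp hc.continuousOn fun p hp => ⟨hm a s _ hs hp.1, hm b t _ ht hp.2⟩
  · intro x _ y _ x' _ y' _
    exact hadd _ _ _ _
  · intro x _ y _ h
    exact hinj a s hs x y (hφ h)
  · intro x _ y _ h
    exact hinj b t ht x y (hφ h)
  · simp only [mul_zero, add_zero]
    exact hs'
  · simp only [mul_zero, add_zero]
    exact ht'

/-- A free abelian group has no nonzero element which is divisible by all powers of two. -/
lemma not_free {A : Type*} [AddCommGroup A] (g : ℕ → A) (h0 : g 0 ≠ 0)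
    (h : ∀ n, g (n + 1) + g (n + 1) = g n) : ¬ Module.Free ℤ A := by
  intro hfree
  have h1 : ∀ n, g 0 = ((2 : ℤ) ^ n) • g n := by
    intro n
    induction n with
    | zero => simp
    | succ n ih => rw [ih, ← h n, ← two_zsmul, smul_smul, pow_succ]
  apply h0
  apply (Module.Free.chooseBasis ℤ A).repr.injective
  rw [map_zero]
  ext i
  rw [Finsupp.zero_apply]
  by_contra hne
  have h2 : ∀ n : ℕ, (2 : ℤ) ^ n ∣ (Module.Free.chooseBasis ℤ A).repr (g 0) i := by
    intro n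
    refine ⟨(Module.Free.chooseBasis ℤ A).repr (g n) i, ?_⟩
    conv_lhs => rw [h1 n]
    rw [map_smul, Finsupp.smul_apply, smul_eq_mul]
  set z := (Module.Free.chooseBasis ℤ A).repr (g 0) i with hz
  have h3 := Int.natAbs_dvd_natAbs.2 (h2 z.natAbs)
  have h4 := Nat.le_of_dvd (Int.natAbs_pos.2 hne) h3
  rw [Int.natAbs_pow] at h4
  exact absurd h4 (not_le.2 (by simpa using Nat.lt_two_pow_self (n := z.natAbs)))

theorem countable_closure {X : Type*} [AddCommGroup X] (B : Set X) (hB : B.Countable) :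
    Countable (AddSubgroup.closure B) := by
  have h2 : (Submodule.span ℤ B).toAddSubgroup = AddSubgroup.closure B :=
    Submodule.span_int_eq_addSubgroupClosure _
  have := hB.to_subtype
  have h3 : Countable (Submodule.span ℤ (Set.range (Subtype.val : B → X))) := inferInstance
  rw [Subtype.range_val] at h3
  rw [← h2]
  exact h3

/-- **The class (a).** Every abelian group with underlying set `ℝ` and an `F_σ` graph has a countable
subgroup which is not free. So every `ℵ_ω`-free abelian group with underlying set `ℝ` and an `F_σ`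
graph is free: this is the statement `S_(a)`, which is a theorem of ZFC. -/
theorem result (G : AddCommGroup ℝ) (hG : IsFSigma (graph G)) :
    (∃ H : AddSubgroup (Carrier G), Countable H ∧ ¬ Module.Free ℤ H) ∧
      (KappaFree (ℵ_ Ordinal.omega0) G → Module.Free ℤ (Carrier G)) := by
  have key : ∃ H : AddSubgroup (Carrier G), Countable H ∧ ¬ Module.Free ℤ H := by
    obtain ⟨g, h0, h⟩ := divisible (A := Carrier G) (fun x => x) (fun _ _ h => h)
      (fun x y => G.add x y) (fun _ _ => rfl) hG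
    refine ⟨AddSubgroup.closure (range g), ?_, ?_⟩
    · exact countable_closure _ (countable_range g)
    · refine not_free (fun n => (⟨g n, AddSubgroup.subset_closure ⟨n, rfl⟩⟩ :
        AddSubgroup.closure (range g))) ?_ ?_
      · intro h1
        exact h0 (congrArg Subtype.val h1)
      · intro n
        exact Subtype.ext (h n)
  refine ⟨key, fun hfree => ?_⟩
  obtain ⟨H, hH, hnot⟩ := key
  refine absurd (hfree H ?_) hnot
  refine (mk_le_aleph0_iff.2 hH).trans_lt ?_
  rw [← aleph_zero]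
  exact aleph_lt_aleph.2 Ordinal.omega0_pos

end Pool.Agent.Results.MP_e75763_lc.FSigmaClass
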